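import Mathlib
import Pool.Agent.Helper23_LAP.Stmts

/-!
# LAP, module FRB: the forbidden arcs form a partial injection
-/

set_option autoImplicit false

namespace Pool.Agent.LAP.H96

open scoped Classical

theorem frb : FRBStmt := by
  intro V _ K X Y hK hA hX hY
  have hru : Relator.RightUnique (fun u v => (u, v) ∈ K) := by
    intro a b c hab hac
    exact hK.1 a b c hab hac
  have hlu : Relator.RightUnique (Function.swap fun u v => (u, v) ∈ K) := by
    intro a b c hab hac
    exact hK.2 b c a hab hac
  have hran : ∀ u v : V, Relation.ReflTransGen (fun u v => (u, v) ∈ K) u v → v ∈ Y → u = v := by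
    intro u v h hv
    rcases Relation.ReflTransGen.cases_tail h with h1 | ⟨w, _, hw⟩
    · exact h1.symm
    · exfalso
      have : v ∈ ran K := Finset.mem_image.2 ⟨(w, v), hw, rfl⟩
      exact Finset.disjoint_left.1 hY hv this
  have hdom : ∀ u v : V, Relation.ReflTransGen (fun u v => (u, v) ∈ K) u v → u ∈ X → u = v := by
    intro u v h hu
    rcases Relation.ReflTransGen.cases_head h with h1 | ⟨w, hw, _⟩
    · exact h1
    · exfalso
      have : u ∈ dom K := Finset.mem_image.2 ⟨(u, w), hw, rfl⟩
      exact Finset.disjoint_left.1 hX hu this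
  constructor
  · intro x y y' h h'
    obtain ⟨-, ⟨hx, hy⟩, hw⟩ := Finset.mem_filter.1 h
    obtain ⟨-, ⟨-, hy'⟩, hw'⟩ := Finset.mem_filter.1 h'
    have hs := Relation.reflTransGen_swap.2 hw
    have hs' := Relation.reflTransGen_swap.2 hw'
    rcases Relation.ReflTransGen.total_of_right_unique hlu hs hs' with h1 | h1
    · exact (hran _ _ (Relation.reflTransGen_swap.1 h1) hy).symm
    · exact hran _ _ (Relation.reflTransGen_swap.1 h1) hy'
  · intro x x' y h h'
    obtain ⟨-, ⟨hx, hy⟩, hw⟩ := Finset.mem_filter.1 h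
    obtain ⟨-, ⟨hx', -⟩, hw'⟩ := Finset.mem_filter.1 h'
    rcases Relation.ReflTransGen.total_of_right_unique hru hw hw' with h1 | h1
    · exact hdom _ _ h1 hx
    · exact (hdom _ _ h1 hx').symm

end Pool.Agent.LAP.H96
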