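import Mathlib
import Pool.Agent.Helper23_LAP.Stmts

/-!
# LAP, module SK5: every vertex is a sink of few classes
-/

set_option autoImplicit false

namespace Pool.Agent.LAP.H96

open scoped Classical

theorem lnk_single {W : Type} (r : W → W → Prop) (z : W) : Lnk r {z} := by
  refine ⟨Finset.singleton_nonempty z, ?_⟩
  intro u hu v hv
  rw [Finset.mem_singleton.1 hu, Finset.mem_singleton.1 hv]

theorem nr3_self {W : Type} (r : W → W → Prop) (z : W) : nr3 r z z :=
  ⟨z, z, Or.inl rfl, Or.inl rfl, Or.inl rfl⟩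

theorem pr_mono' {U S : Type} [Fintype U] [Fintype S] {A B : Set (U → S)} (h : A ⊆ B) :
    pr A ≤ pr B := by
  unfold pr
  apply div_le_div_of_nonneg_right _ (Nat.cast_nonneg _)
  have : (Finset.univ.filter fun ω => ω ∈ A) ⊆ Finset.univ.filter fun ω => ω ∈ B := by
    intro ω hω
    exact Finset.mem_filter.2 ⟨Finset.mem_univ _, h (Finset.mem_filter.1 hω).2⟩
  exact_mod_cast Finset.card_le_card this

/-- The common part of the two events. -/
theorem sk5_aux (hT : THUStmt) {L q P' : ℕ} {T : ℝ} {α β : Type} [Fintype α] [Fintype β]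
    (E : Finset (α × β)) (hL : 10 ^ 4 ≤ L) (hs3 : (L : ℝ) ^ 4 ≤ 2 * P') (hTP : T ≤ P')
    (z : α ⊕ β) (C : Finset (Fin q)) (hC : ((C.card : ℕ) : ℝ) ≤ T) :
    Ev (sadj E) L (locK : Fin q × (α ⊕ β) → Finset (α ⊕ β))
      {ω : Fin q × (α ⊕ β) → Fin P' | ¬
        ((((C.filter fun c => (ω (c, z)).val = 0).card : ℕ) : ℝ) ≤ 2 * (L : ℝ) ^ 2)} {z} := by
  have hL1 : (10 ^ 4 : ℝ) ≤ L := by exact_mod_cast hL
  have hL4 : (1 : ℝ) ≤ (L : ℝ) ^ 4 := one_le_pow₀ (by linarith)
  have hP : 0 < P' := by
    rcases Nat.eq_zero_or_pos P' with h | h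
    · exfalso
      rw [h] at hs3
      norm_num at hs3
      linarith
    · exact h
  have : Nonempty (Fin P') := ⟨⟨0, hP⟩⟩
  have hP' : (0 : ℝ) < P' := by exact_mod_cast hP
  refine Or.inr ⟨lnk_single _ _, ⟨C.image fun c => (c, z), ?_, ?_⟩, ?_⟩
  · intro ω ω' h hω hω'
    refine hω ?_
    have : (C.filter fun c => (ω (c, z)).val = 0) = C.filter fun c => (ω' (c, z)).val = 0 := by
      apply Finset.filter_congr
      intro c hc
      rw [h (c, z) (Finset.mem_image_of_mem _ hc)]
    rw [this]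
    exact hω'
  · intro u hu
    obtain ⟨c, -, rfl⟩ := Finset.mem_image.1 hu
    exact ⟨z, Finset.mem_singleton_self z, z, Finset.mem_singleton_self z, nr3_self _ _⟩
  · have hsum : ∀ ω : Fin q × (α ⊕ β) → Fin P',
        (∑ u ∈ C.image fun c => (c, z), if ω u ∈ ({⟨0, hP⟩} : Finset (Fin P')) then (1 : ℝ) else 0) =
          (((C.filter fun c => (ω (c, z)).val = 0).card : ℕ) : ℝ) := by
      intro ω
      rw [Finset.sum_image (by intro a _ b _ h; exact (Prod.mk.inj h).1)]
      rw [Finset.sum_boole]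
      congr 2
      apply Finset.filter_congr
      intro c _
      rw [Finset.mem_singleton, Fin.ext_iff]
    have h := hT (Fin q × (α ⊕ β)) (Fin P') (C.image fun c => (c, z)) (fun _ => (1 : ℝ))
      (fun _ => {⟨0, hP⟩}) 1 1 ((L : ℝ) ^ 2) 1 one_pos zero_le_one le_rfl
      (fun u _ => ⟨zero_le_one, le_rfl⟩) (by
        rw [Finset.sum_const, nsmul_eq_mul, Finset.card_singleton, Fintype.card_fin]
        have h1 : (((C.image fun c => (c, z)).card : ℕ) : ℝ) ≤ C.card := by
          exact_mod_cast Finset.card_image_le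
        have h2 : (((C.image fun c => (c, z)).card : ℕ) : ℝ) ≤ P' := h1.trans (hC.trans hTP)
        rw [Nat.cast_one, one_mul, mul_one_div, div_le_one hP']
        exact h2)
    refine le_trans ?_ (h.trans (le_of_eq ?_))
    · apply pr_mono'
      intro ω hω
      have h3 := not_le.1 (show ¬ ((((C.filter fun c => (ω (c, z)).val = 0).card : ℕ) : ℝ) ≤
        2 * (L : ℝ) ^ 2) from hω)
      have h5 : (1 + 1) * 1 + (L : ℝ) ^ 2 ≤
          (((C.filter fun c => (ω (c, z)).val = 0).card : ℕ) : ℝ) := by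
        nlinarith
      rw [← hsum ω] at h5
      rw [Set.mem_ofPred_eq]
      convert h5
    · rw [Finset.card_singleton]
      norm_num

theorem sk5 (hT : THUStmt) : SK5Stmt := by
  intro k L q D δ η r T Rr ζ P P' hP α β _ _ E X Y hX hY
  constructor
  · intro x
    have h := sk5_aux hT (q := q) E hP.L4 hP.s3 hP.T1 (Sum.inl x) (Finset.univ.filter fun c => x ∈ X c)
      (hX x)
    have e : ∀ ω : Fin q × (α ⊕ β) → Fin P', (Finset.univ.filter fun c => x ∈ skX X ω c) =
        (Finset.univ.filter fun c => x ∈ X c).filter fun c => (ω (c, Sum.inl x)).val = 0 := by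
      intro ω
      ext c
      simp only [skX, Finset.mem_filter, Finset.mem_univ, true_and]
    simpa only [e] using h
  · intro y
    have h := sk5_aux hT (q := q) E hP.L4 hP.s3 hP.T1 (Sum.inr y) (Finset.univ.filter fun c => y ∈ Y c)
      (hY y)
    have e : ∀ ω : Fin q × (α ⊕ β) → Fin P', (Finset.univ.filter fun c => y ∈ skY Y ω c) =
        (Finset.univ.filter fun c => y ∈ Y c).filter fun c => (ω (c, Sum.inr y)).val = 0 := by
      intro ω
      ext c
      simp only [skY, Finset.mem_filter, Finset.mem_univ, true_and]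
    simpa only [e] using h

end Pool.Agent.LAP.H96
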